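import Pool.Agent.helper82.UN.SpecP

/-!
# Project UN, row PDE: `ff` is continuous and decays
-/

set_option autoImplicit false

open NumberField Complex MeasureTheory nonZeroDivisors

namespace Pool.Agent.UN

section fields

variable {K : Type} [Field K] [NumberField K]

theorem PDE_xw_cont {ι : Type} [Fintype ι] (ω : ι → K) (r : K) (w : InfinitePlace K) :
    Continuous fun t : ι → ℝ => xw ω r t w := by
  unfold xw
  refine (continuous_finsetSum _ fun i _ => ?_).add continuous_const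
  exact (Complex.continuous_ofReal.comp (continuous_apply i)).mul continuous_const

theorem PDE_cont {ι : Type} [Fintype ι] (m : InfinitePlace K → ℤ) (e : InfinitePlace K → ℕ)
    (y : InfinitePlace K → ℝ) (ω : ι → K) (r : K) : Continuous (ff m e y ω r) := by
  have hx := PDE_xw_cont ω r
  have h1 : Continuous fun t : ι → ℝ => Pf m e (xw ω r t) := by
    unfold Pf
    refine continuous_finsetProd _ fun w _ => ?_
    refine ((hx w).pow _).mul ?_
    split_ifs
    · exact (hx w).pow _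
    · exact (Complex.continuous_conj.comp (hx w)).pow _
  have h2 : Continuous fun t : ι → ℝ => Gf y (xw ω r t) := by
    unfold Gf
    refine Real.continuous_exp.comp ?_
    refine Continuous.neg (continuous_const.mul ?_)
    refine continuous_finsetSum _ fun w _ => ?_
    exact continuous_const.mul ((hx w).norm.pow 2)
  exact h1.mul (Complex.continuous_ofReal.comp h2)

theorem PDE_norm (m : InfinitePlace K → ℤ) (e : InfinitePlace K → ℕ) (y : InfinitePlace K → ℝ)
    (z : InfinitePlace K → ℂ) : ‖Pf m e z * (Gf y z : ℂ)‖ =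
      ∏ w : InfinitePlace K, ‖z w‖ ^ (e w + (m w).natAbs) *
        Real.exp (-(Real.pi * (w.mult : ℝ) * y w * ‖z w‖ ^ 2)) := by
  have h1 : ‖Pf m e z‖ = ∏ w : InfinitePlace K, ‖z w‖ ^ (e w + (m w).natAbs) := by
    unfold Pf
    rw [norm_prod]
    refine Finset.prod_congr rfl fun w _ => ?_
    rw [norm_mul, norm_pow, pow_add]
    congr 1
    split_ifs
    · rw [norm_pow]
    · rw [norm_pow, RCLike.norm_conj]
  have h2 : Gf y z = ∏ w : InfinitePlace K,
      Real.exp (-(Real.pi * (w.mult : ℝ) * y w * ‖z w‖ ^ 2)) := by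
    unfold Gf
    rw [← Real.exp_sum, Finset.sum_neg_distrib, Finset.mul_sum]
    congr 2
    refine Finset.sum_congr rfl fun w _ => ?_
    ring
  rw [norm_mul, h1, Complex.norm_real, Real.norm_eq_abs, abs_of_nonneg (by
    unfold Gf
    exact (Real.exp_pos _).le), h2, ← Finset.prod_mul_distrib]

theorem PDE_split {ι : Type} [Fintype ι] (ω : ι → K) (r : K) (t : ι → ℝ) (k : ι → ℤ)
    (ht : ∀ i, |t i| ≤ 1) (w : InfinitePlace K) :
    ‖xw ω 0 (zc k) w‖ ≤ ‖xw ω r (t + zc k) w‖ +
      (∑ i, ‖w.embedding (ω i)‖ + ‖w.embedding r‖) := by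
  have h1 : xw ω 0 (zc k) w = xw ω r (t + zc k) w -
      (∑ i, (t i : ℂ) * w.embedding (ω i) + w.embedding r) := by
    unfold xw
    have h2 : ∑ i, (((t + zc k) i : ℝ) : ℂ) * w.embedding (ω i) =
        ∑ i, (t i : ℂ) * w.embedding (ω i) + ∑ i, ((zc k i : ℝ) : ℂ) * w.embedding (ω i) := by
      rw [← Finset.sum_add_distrib]
      refine Finset.sum_congr rfl fun i _ => ?_
      rw [Pi.add_apply]
      push_cast
      ring
    rw [h2, map_zero]
    ring
  rw [h1]
  refine (norm_sub_le _ _).trans (add_le_add le_rfl ?_)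
  refine (norm_add_le _ _).trans (add_le_add ?_ le_rfl)
  refine (norm_sum_le _ _).trans (Finset.sum_le_sum fun i _ => ?_)
  rw [norm_mul, Complex.norm_real, Real.norm_eq_abs]
  calc |t i| * ‖w.embedding (ω i)‖ ≤ 1 * ‖w.embedding (ω i)‖ :=
        mul_le_mul_of_nonneg_right (ht i) (norm_nonneg _)
    _ = ‖w.embedding (ω i)‖ := one_mul _

end fields

theorem PDE (hPZS : PZS_stmt) (hPLB : PLB_stmt) (hPBD : PBD_stmt) : PDE_stmt := by
  intro K _ _ ι _ ω r m e y hy
  refine ⟨PDE_cont m e y _ r, ?_⟩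
  obtain ⟨c, hc, hlow⟩ := hPLB K ι ω
  have hcw : ∀ w : InfinitePlace K, 0 < Real.pi * (w.mult : ℝ) * y w := by
    intro w
    have h1 : (0 : ℝ) < w.mult := by exact_mod_cast InfinitePlace.mult_pos
    exact mul_pos (mul_pos Real.pi_pos h1) (hy w)
  choose Cw hCw0 hCw using fun w : InfinitePlace K =>
    hPBD (e w + (m w).natAbs) (Real.pi * (w.mult : ℝ) * y w) (hcw w)
  set Cp : ℝ := ∏ w : InfinitePlace K, Cw w with hCp
  have hCp0 : 0 < Cp := Finset.prod_pos fun w _ => hCw0 w
  set M : ℝ := ∑ w : InfinitePlace K, (∑ i, ‖w.embedding (ω i)‖ + ‖w.embedding r‖) with hM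
  refine ⟨fun k => Cp * Real.exp M * Real.exp (-(c * ∑ i, |(k i : ℝ)|)),
    (hPZS ι c hc).mul_left _, ?_⟩
  intro k t ht
  set z : InfinitePlace K → ℂ := xw (fun i => ω i) r (t + zc k) with hz
  have h1 : ‖ff m e y (fun i => ω i) r (t + zc k)‖ ≤ Cp * Real.exp (-∑ w, ‖z w‖) := by
    unfold ff
    rw [PDE_norm, hCp, ← Finset.sum_neg_distrib, Real.exp_sum, ← Finset.prod_mul_distrib]
    refine Finset.prod_le_prod (fun w _ => ?_) (fun w _ => ?_)
    · exact mul_nonneg (pow_nonneg (norm_nonneg _) _) (Real.exp_pos _).le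
    · exact hCw w ‖z w‖ (norm_nonneg _)
  have h2 : c * ∑ i, |(k i : ℝ)| ≤ ∑ w, ‖z w‖ + M := by
    refine (hlow (zc k)).trans ?_
    rw [hM, ← Finset.sum_add_distrib]
    exact Finset.sum_le_sum fun w _ => PDE_split _ r t k ht w
  refine h1.trans ?_
  show Cp * Real.exp (-∑ w, ‖z w‖) ≤ Cp * Real.exp M * Real.exp (-(c * ∑ i, |(k i : ℝ)|))
  rw [mul_assoc, ← Real.exp_add]
  refine mul_le_mul_of_nonneg_left (Real.exp_le_exp.2 ?_) hCp0.le
  linarith

end Pool.Agent.UN
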